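import Mathlib
import Pool.Agent.Helper292.ForceCH

set_option autoImplicit false
set_option linter.all false

open Set Topology Filter

namespace Pool.Agent.Helper319.Jak

open Pool.Agent.Helper292.ForceCH (Om exists_bound countable_Iio ub lt_ub ub_le)

/-- the points of the locally compact part: level and rank -/
abbrev Pt : Type := Om × ℕ

/-- the new point which uses the `m`-th piece of a ladder -/
def col (m : ℕ) : ℕ := (Nat.unpair m).1

/-- the guessed set which the `m`-th point of a ladder is taken from -/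
def tgt (m : ℕ) : ℕ := (Nat.unpair (Nat.unpair m).2).1

lemma exists_col_tgt (r j l : ℕ) : ∃ m ≥ l, col m = r ∧ tgt m = j := by
  refine ⟨Nat.pair r (Nat.pair j l), ?_, by simp [col], by simp [tgt]⟩
  exact (Nat.right_le_pair j l).trans (Nat.right_le_pair r _)

/-- `a, k` is a ladder at `δ` of rank at most `n` -/
structure Lad (W : Pt → ℕ → Set Pt) (C : ℕ → Set Pt) (δ : Om) (n : ℕ) (a : ℕ → Pt)
    (k : ℕ → ℕ) : Prop where
  mem : ∀ m, a m ∈ C (tgt m)
  lt : ∀ m, (a m).1 < δ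
  rk : ∀ m, (a m).2 ≤ n
  disj : ∀ m m', m ≠ m' → Disjoint (W (a m) (k m)) (W (a m') (k m'))
  lf : ∀ x : Pt, x.1 < δ → ∃ M, ∀ m ≥ M, Disjoint (W x 0) (W (a m) (k m))

lemma Lad.congr {W W' : Pt → ℕ → Set Pt} {C : ℕ → Set Pt} {δ : Om} {n : ℕ} {a : ℕ → Pt}
    {k : ℕ → ℕ} (h : Lad W C δ n a k) (hW : ∀ p : Pt, p.1 < δ → ∀ l, W p l = W' p l) :
    Lad W' C δ n a k := by
  refine ⟨h.mem, h.lt, h.rk, fun m m' hm => ?_, fun x hx => ?_⟩
  · rw [← hW _ (h.lt m), ← hW _ (h.lt m')]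
    exact h.disj m m' hm
  · obtain ⟨M, hM⟩ := h.lf x hx
    refine ⟨M, fun m hm => ?_⟩
    rw [← hW _ (h.lt m), ← hW _ hx]
    exact hM m hm

open Classical in
/-- the neighbourhoods of the points of level `δ` -/
noncomputable def stepV (C : ℕ → Set Pt) (δ : Om) (W : Pt → ℕ → Set Pt) (r l : ℕ) : Set Pt :=
  if h : ∃ n, ∃ (a : ℕ → Pt) (k : ℕ → ℕ), Lad W C δ n a k then
    if Nat.find h ≤ r then
      insert (δ, r) (⋃ m ∈ {m | l ≤ m ∧ col m = r},
        W (Classical.choose (Nat.find_spec h) m)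
          (Classical.choose (Classical.choose_spec (Nat.find_spec h)) m))
    else {(δ, r)}
  else {(δ, r)}

/-- the neighbourhoods -/
noncomputable def V0 (G : Om → ℕ → Set Pt) : Om → ℕ → ℕ → Set Pt :=
  (wellFounded_lt (α := Om)).fix fun δ ih =>
    stepV (G δ) δ (fun p l => if h : p.1 < δ then ih p.1 h p.2 l else ∅)

/-- the neighbourhoods -/
noncomputable def V (G : Om → ℕ → Set Pt) (p : Pt) (l : ℕ) : Set Pt := V0 G p.1 p.2 l

lemma V_eq (G : Om → ℕ → Set Pt) (δ : Om) (r l : ℕ) :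
    V G (δ, r) l = stepV (G δ) δ (fun p l => if p.1 < δ then V G p l else ∅) r l := by
  unfold V V0
  rw [WellFounded.fix_eq]
  rfl

lemma V_cases (G : Om → ℕ → Set Pt) (δ : Om) :
    (∃ n a k, Lad (V G) (G δ) δ n a k ∧
      (∀ r, n ≤ r → ∀ l, V G (δ, r) l = insert (δ, r) (⋃ m ∈ {m | l ≤ m ∧ col m = r},
        V G (a m) (k m))) ∧
      (∀ r, r < n → ∀ l, V G (δ, r) l = {(δ, r)}) ∧
      ∀ n' a' k', Lad (V G) (G δ) δ n' a' k' → n ≤ n') ∨
    ((∀ r l, V G (δ, r) l = {(δ, r)}) ∧ ∀ n' a' k', ¬ Lad (V G) (G δ) δ n' a' k') := by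
  classical
  set W : Pt → ℕ → Set Pt := fun p l => if p.1 < δ then V G p l else ∅ with hWdef
  have hW : ∀ p : Pt, p.1 < δ → ∀ l, W p l = V G p l := fun p hp l => by
    simp only [hWdef, hp, if_pos]
  by_cases h : ∃ n, ∃ (a : ℕ → Pt) (k : ℕ → ℕ), Lad W (G δ) δ n a k
  · left
    have hL := Classical.choose_spec (Classical.choose_spec (Nat.find_spec h))
    refine ⟨Nat.find h, Classical.choose (Nat.find_spec h),
      Classical.choose (Classical.choose_spec (Nat.find_spec h)), hL.congr hW, ?_, ?_, ?_⟩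
    · intro r hr l
      rw [V_eq, stepV, dif_pos h, if_pos hr]
      congr 1
      refine iUnion₂_congr fun m _ => ?_
      exact hW _ (hL.lt m) _
    · intro r hr l
      rw [V_eq, stepV, dif_pos h, if_neg (not_le.2 hr)]
    · intro n' a' k' h'
      exact Nat.find_le ⟨a', k', h'.congr fun p hp l => (hW p hp l).symm⟩
  · right
    refine ⟨fun r l => ?_, fun n' a' k' h' => h ⟨n', a', k', h'.congr fun p hp l =>
      (hW p hp l).symm⟩⟩
    rw [V_eq, stepV, dif_neg h]

variable (G : Om → ℕ → Set Pt)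

lemma mem_V (p : Pt) (l : ℕ) : p ∈ V G p l := by
  obtain ⟨δ, r⟩ := p
  rcases V_cases G δ with ⟨n, a, k, hL, h1, h2, h3⟩ | ⟨h1, h2⟩
  · rcases le_or_gt n r with hr | hr
    · rw [h1 r hr]; exact mem_insert _ _
    · rw [h2 r hr]; exact mem_singleton _
  · rw [h1]; exact mem_singleton _

lemma V_anti (p : Pt) {l l' : ℕ} (h : l ≤ l') : V G p l' ⊆ V G p l := by
  obtain ⟨δ, r⟩ := p
  rcases V_cases G δ with ⟨n, a, k, hL, h1, h2, h3⟩ | ⟨h1, h2⟩
  · rcases le_or_gt n r with hr | hr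
    · rw [h1 r hr, h1 r hr]
      refine insert_subset_insert ?_
      refine biUnion_subset_biUnion_left ?_
      rintro m ⟨h4, h5⟩
      exact ⟨h.trans h4, h5⟩
    · rw [h2 r hr, h2 r hr]
  · rw [h1, h1]

/-- decomposition of the neighbourhoods -/
lemma V_dec (p : Pt) (l : ℕ) (q : Pt) (hq : q ∈ V G p l) :
    q = p ∨ ∃ a k, a.1 < p.1 ∧ a.2 ≤ p.2 ∧ q ∈ V G a k ∧ V G a k ⊆ V G p l := by
  obtain ⟨δ, r⟩ := p
  rcases V_cases G δ with ⟨n, a, k, hL, h1, h2, h3⟩ | ⟨h1, h2⟩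
  · rcases le_or_gt n r with hr | hr
    · rw [h1 r hr] at hq
      rcases hq with hq | hq
      · exact Or.inl hq
      · right
        simp only [mem_iUnion] at hq
        obtain ⟨m, hm, hq⟩ := hq
        refine ⟨a m, k m, hL.lt m, (hL.rk m).trans hr, hq, ?_⟩
        rw [h1 r hr]
        refine Subset.trans ?_ (subset_insert _ _)
        intro x hx
        simp only [mem_iUnion]
        exact ⟨m, hm, hx⟩
    · rw [h2 r hr] at hq
      exact Or.inl hq
  · rw [h1] at hq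
    exact Or.inl hq

lemma pt_induction {Q : Pt → Prop} (h : ∀ p : Pt, (∀ q : Pt, q.1 < p.1 → Q q) → Q p) (p : Pt) :
    Q p :=
  (InvImage.wf (Prod.fst : Pt → Om) (wellFounded_lt (α := Om))).induction p fun p ih =>
    h p fun q hq => ih q hq

lemma V_below (p : Pt) : ∀ (l : ℕ) (q : Pt), q ∈ V G p l → q = p ∨ q.1 < p.1 := by
  refine pt_induction (Q := fun p => ∀ (l : ℕ) (q : Pt), q ∈ V G p l → q = p ∨ q.1 < p.1) ?_ p
  intro p ih l q hq
  rcases V_dec G p l q hq with h | ⟨a, k, h1, h2, h3, h4⟩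
  · exact Or.inl h
  · right
    rcases ih a h1 k q h3 with h | h
    · rw [h]; exact h1
    · exact h.trans h1

lemma V_le {p : Pt} {l : ℕ} {q : Pt} (h : q ∈ V G p l) : q.1 ≤ p.1 := by
  rcases V_below G p l q h with h | h
  · rw [h]
  · exact h.le

lemma V_rank (p : Pt) : ∀ (l : ℕ) (q : Pt), q ∈ V G p l → q.2 ≤ p.2 := by
  refine pt_induction (Q := fun p => ∀ (l : ℕ) (q : Pt), q ∈ V G p l → q.2 ≤ p.2) ?_ p
  intro p ih l q hq
  rcases V_dec G p l q hq with h | ⟨a, k, h1, h2, h3, h4⟩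
  · rw [h]
  · exact (ih a h1 k q h3).trans h2

lemma V_open (p : Pt) : ∀ (l : ℕ) (q : Pt), q ∈ V G p l → ∃ l', V G q l' ⊆ V G p l := by
  refine pt_induction (Q := fun p => ∀ (l : ℕ) (q : Pt), q ∈ V G p l →
    ∃ l', V G q l' ⊆ V G p l) ?_ p
  intro p ih l q hq
  rcases V_dec G p l q hq with h | ⟨a, k, h1, h2, h3, h4⟩
  · exact ⟨l, by rw [h]⟩
  · obtain ⟨l', hl'⟩ := ih a h1 k q h3
    exact ⟨l', hl'.trans h4⟩

/-- two distinct points of one level have disjoint neighbourhoods -/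
lemma V_same (δ : Om) (r r' : ℕ) (h : r ≠ r') : Disjoint (V G (δ, r) 0) (V G (δ, r') 0) := by
  have key : ∀ r r' : ℕ, r ≠ r' → (δ, r) ∉ V G (δ, r') 0 := by
    intro r r' h hm
    rcases V_below G _ _ _ hm with h1 | h1
    · exact h (congrArg Prod.snd h1)
    · exact lt_irrefl _ h1
  rcases V_cases G δ with ⟨n, a, k, hL, h1, h2, h3⟩ | ⟨h1, h2⟩
  · rcases le_or_gt n r with hr | hr
    · rcases le_or_gt n r' with hr' | hr'
      · rw [Set.disjoint_left]
        intro x hx hx'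
        rw [h1 r hr] at hx
        rcases hx with hx | hx
        · rw [hx] at hx'
          exact key r r' h hx'
        · rw [h1 r' hr'] at hx'
          rcases hx' with hx' | hx'
          · refine key r' r h.symm ?_
            rw [← hx', h1 r hr]
            exact mem_insert_of_mem _ hx
          · simp only [mem_iUnion] at hx hx'
            obtain ⟨m, hm, hx⟩ := hx
            obtain ⟨m', hm', hx'⟩ := hx'
            refine Set.disjoint_left.1 (hL.disj m m' ?_) hx hx'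
            rintro rfl
            exact h (hm.2.symm.trans hm'.2)
      · rw [h2 r' hr', Set.disjoint_singleton_right]
        exact key r' r h.symm
    · rw [h2 r hr, Set.disjoint_singleton_left]
      exact key r r' h
  · rw [h1, h1, Set.disjoint_singleton]
    intro h3
    exact h (congrArg Prod.snd h3)

lemma V_closed_aux (δ : Om) : ∀ p q : Pt, p.1 ≤ δ → q.1 ≤ δ → ∀ l, q ∉ V G p l →
    ∃ l', Disjoint (V G q l') (V G p l) := by
  induction δ using WellFoundedLT.induction with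
  | ind δ ih =>
  intro p q hp hq l hql
  rcases hp.lt_or_eq with hp1 | hp1
  · rcases hq.lt_or_eq with hq1 | hq1
    · exact ih (max p.1 q.1) (max_lt hp1 hq1) p q (le_max_left _ _) (le_max_right _ _) l hql
    · -- `q` is new
      obtain ⟨δ', r⟩ := q
      dsimp only at hq1
      subst hq1
      rcases V_cases G δ' with ⟨n, a, k, hL, h1, h2, h3⟩ | ⟨h1, h2⟩
      · rcases le_or_gt n r with hr | hr
        · obtain ⟨M, hM⟩ := hL.lf p hp1
          refine ⟨M, ?_⟩
          rw [Set.disjoint_left]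
          intro x hx hx'
          rw [h1 r hr] at hx
          rcases hx with hx | hx
          · rw [hx] at hx'; exact hql hx'
          · simp only [mem_iUnion] at hx
            obtain ⟨m, hm, hx⟩ := hx
            exact Set.disjoint_left.1 (hM m hm.1) (V_anti G p (Nat.zero_le l) hx') hx
        · refine ⟨0, ?_⟩
          rw [h2 r hr, Set.disjoint_singleton_left]
          exact hql
      · refine ⟨0, ?_⟩
        rw [h1, Set.disjoint_singleton_left]
        exact hql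
  · rcases hq.lt_or_eq with hq1 | hq1
    · -- `p` is new
      obtain ⟨δ', r⟩ := p
      dsimp only at hp1
      subst hp1
      have hpq : ∀ l', (δ', r) ∉ V G q l' := fun l' h => absurd (V_le G h) (not_le.2 hq1)
      rcases V_cases G δ' with ⟨n, a, k, hL, h1, h2, h3⟩ | ⟨h1, h2⟩
      · rcases le_or_gt n r with hr | hr
        · obtain ⟨M, hM⟩ := hL.lf q hq1
          have h4 : ∀ m, l ≤ m → col m = r → ∃ l', Disjoint (V G q l') (V G (a m) (k m)) := by
            intro m hm hmr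
            refine ih (max q.1 (a m).1) (max_lt hq1 (hL.lt m)) (a m) q (le_max_right _ _)
              (le_max_left _ _) (k m) ?_
            intro hqm
            apply hql
            rw [h1 r hr]
            refine mem_insert_of_mem _ ?_
            simp only [mem_iUnion]
            exact ⟨m, ⟨hm, hmr⟩, hqm⟩
          have h5 : ∀ m, ∃ l', l ≤ m → col m = r → Disjoint (V G q l') (V G (a m) (k m)) := by
            intro m
            by_cases h6 : l ≤ m ∧ col m = r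
            · obtain ⟨l', hl'⟩ := h4 m h6.1 h6.2
              exact ⟨l', fun _ _ => hl'⟩
            · exact ⟨0, fun h7 h8 => absurd ⟨h7, h8⟩ h6⟩
          choose L hL' using h5
          refine ⟨(Finset.range M).sup L, ?_⟩
          rw [Set.disjoint_left]
          intro x hx hx'
          rw [h1 r hr] at hx'
          rcases hx' with hx' | hx'
          · rw [hx'] at hx; exact hpq _ hx
          · simp only [mem_iUnion] at hx'
            obtain ⟨m, hm, hx'⟩ := hx'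
            rcases lt_or_ge m M with hmM | hmM
            · exact Set.disjoint_left.1 (hL' m hm.1 hm.2)
                (V_anti G q (Finset.le_sup (f := L) (Finset.mem_range.2 hmM)) hx) hx'
            · exact Set.disjoint_left.1 (hM m hmM) (V_anti G q (Nat.zero_le _) hx) hx'
        · refine ⟨0, ?_⟩
          rw [h2 r hr, Set.disjoint_singleton_right]
          exact hpq _
      · refine ⟨0, ?_⟩
        rw [h1, Set.disjoint_singleton_right]
        exact hpq _
    · obtain ⟨δ', r⟩ := p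
      obtain ⟨δ'', r'⟩ := q
      dsimp only at hp1 hq1
      subst hp1
      subst hq1
      have hrr : r' ≠ r := by
        rintro rfl
        exact hql (mem_V G _ _)
      exact ⟨0, (V_same G δ'' r' r hrr).mono_right (V_anti G _ (Nat.zero_le l))⟩

lemma V_closed (p q : Pt) (l : ℕ) (h : q ∉ V G p l) : ∃ l', Disjoint (V G q l') (V G p l) :=
  V_closed_aux G (max p.1 q.1) p q (le_max_left _ _) (le_max_right _ _) l h

lemma V_sep (p q : Pt) (h : q ≠ p) : ∃ l, q ∉ V G p l := by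
  rcases lt_or_ge q.1 p.1 with h1 | h1
  · obtain ⟨δ, r⟩ := p
    rcases V_cases G δ with ⟨n, a, k, hL, h2, h3, h4⟩ | ⟨h2, h3⟩
    · rcases le_or_gt n r with hr | hr
      · obtain ⟨M, hM⟩ := hL.lf q h1
        refine ⟨M, fun h5 => ?_⟩
        rw [h2 r hr] at h5
        rcases h5 with h5 | h5
        · exact h h5
        · simp only [mem_iUnion] at h5
          obtain ⟨m, hm, h5⟩ := h5
          exact Set.disjoint_left.1 (hM m hm.1) (mem_V G q 0) h5
      · refine ⟨0, fun h5 => ?_⟩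
        rw [h3 r hr] at h5
        exact h h5
    · refine ⟨0, fun h5 => ?_⟩
      rw [h2] at h5
      exact h h5
  · refine ⟨0, fun h2 => ?_⟩
    rcases V_below G _ _ _ h2 with h3 | h3
    · exact h h3
    · exact absurd h3 (not_lt.2 h1)

/-- existence of ladders -/
lemma exists_lad (δ : Om) (n : ℕ)
    (h : ∀ (j : ℕ) (F : Finset Pt), (∀ x ∈ F, x.1 < δ) →
      ∃ a ∈ G δ j, a.1 < δ ∧ a.2 ≤ n ∧ ∀ x ∈ F, a ∉ V G x 0) :
    ∃ a k, Lad (V G) (G δ) δ n a k := by
  classical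
  have hcount : ({x : Pt | x.1 < δ}).Countable := by
    have h1 : {x : Pt | x.1 < δ} = {b : Om | b < δ} ×ˢ (univ : Set ℕ) := by
      ext x; simp
    rw [h1]
    exact (Set.countable_coe_iff.1 (countable_Iio δ)).prod countable_univ
  have hne : ({x : Pt | x.1 < δ}).Nonempty := by
    obtain ⟨a, _, h2, _⟩ := h 0 ∅ (by simp)
    exact ⟨a, h2⟩
  obtain ⟨x, hx⟩ := hcount.exists_eq_range hne
  have hxlt : ∀ i, (x i).1 < δ := fun i => by
    have : x i ∈ {x : Pt | x.1 < δ} := by rw [hx]; exact mem_range_self i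
    exact this
  have step : ∀ (m : ℕ) (F : {F : Finset Pt // ∀ y ∈ F, y.1 < δ}), ∃ (a : Pt) (k : ℕ),
      a ∈ G δ (tgt m) ∧ a.1 < δ ∧ a.2 ≤ n ∧ ∀ y ∈ F.1, Disjoint (V G a k) (V G y 0) := by
    intro m F
    obtain ⟨a, h1, h2, h3, h4⟩ := h (tgt m) F.1 F.2
    have h5 : ∀ y : Pt, ∃ l, y ∈ F.1 → Disjoint (V G a l) (V G y 0) := by
      intro y
      by_cases hy : y ∈ F.1
      · obtain ⟨l, hl⟩ := V_closed G y a 0 (h4 y hy)
        exact ⟨l, fun _ => hl⟩
      · exact ⟨0, fun h' => absurd h' hy⟩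
    choose L hL using h5
    refine ⟨a, F.1.sup L, h1, h2, h3, fun y hy => ?_⟩
    exact (hL y hy).mono_left (V_anti G a (Finset.le_sup hy))
  choose A K hA1 hA2 hA3 hA4 using step
  let nxt : ℕ → {F : Finset Pt // ∀ y ∈ F, y.1 < δ} → {F : Finset Pt // ∀ y ∈ F, y.1 < δ} :=
    fun m F => ⟨insert (x m) (insert (A m F) F.1), by
      intro y hy
      rw [Finset.mem_insert, Finset.mem_insert] at hy
      rcases hy with rfl | rfl | hy
      · exact hxlt m
      · exact hA2 m F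
      · exact F.2 y hy⟩
  let S : ℕ → {F : Finset Pt // ∀ y ∈ F, y.1 < δ} := fun m =>
    Nat.rec ⟨∅, by simp⟩ (fun m F => nxt m F) m
  have hS : ∀ m, S (m + 1) = nxt m (S m) := fun m => rfl
  have hmono1 : ∀ m, (S m).1 ⊆ (S (m + 1)).1 := by
    intro m y hy
    rw [hS]
    exact Finset.mem_insert_of_mem (Finset.mem_insert_of_mem hy)
  have hmono : Monotone fun m => (S m).1 := monotone_nat_of_le_succ hmono1
  refine ⟨fun m => A m (S m), fun m => K m (S m), fun m => hA1 _ _, fun m => hA2 _ _,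
    fun m => hA3 _ _, ?_, ?_⟩
  · have key : ∀ m m', m < m' → Disjoint (V G (A m (S m)) (K m (S m)))
        (V G (A m' (S m')) (K m' (S m'))) := by
      intro m m' hm
      have h1 : A m (S m) ∈ (S m').1 := by
        apply hmono (Nat.succ_le_of_lt hm)
        change _ ∈ (S (m + 1)).1
        rw [hS]
        exact Finset.mem_insert_of_mem (Finset.mem_insert_self _ _)
      exact ((hA4 m' (S m') _ h1).symm).mono_left (V_anti G _ (Nat.zero_le _))
    intro m m' hm
    rcases lt_or_gt_of_ne hm with h1 | h1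
    · exact key m m' h1
    · exact (key m' m h1).symm
  · intro y hy
    have h1 : y ∈ range x := by rw [← hx]; exact hy
    obtain ⟨i, rfl⟩ := h1
    refine ⟨i + 1, fun m hm => ?_⟩
    have h1 : x i ∈ (S m).1 := by
      apply hmono hm
      change _ ∈ (S (i + 1)).1
      rw [hS]
      exact Finset.mem_insert_self _ _
    exact (hA4 m (S m) _ h1).symm

/-! ### The topology -/

/-- the locally compact space -/
structure Sp (G : Om → ℕ → Set Pt) : Type where
  /-- the underlying point -/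
  pt : Pt

/-- the neighbourhood as a subset of the space -/
def N {G : Om → ℕ → Set Pt} (p : Sp G) (l : ℕ) : Set (Sp G) := {q | q.pt ∈ V G p.pt l}

variable {G}

lemma mem_N (p : Sp G) (l : ℕ) : p ∈ N p l := mem_V G p.pt l

lemma N_anti (p : Sp G) {l l' : ℕ} (h : l ≤ l') : N p l' ⊆ N p l :=
  fun _ hq => V_anti G p.pt h hq

instance : TopologicalSpace (Sp G) where
  IsOpen U := ∀ p ∈ U, ∃ l, N p l ⊆ U
  isOpen_univ := fun p _ => ⟨0, subset_univ _⟩
  isOpen_inter := by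
    rintro s t hs ht p ⟨h1, h2⟩
    obtain ⟨l, hl⟩ := hs p h1
    obtain ⟨l', hl'⟩ := ht p h2
    exact ⟨max l l', subset_inter ((N_anti p (le_max_left _ _)).trans hl)
      ((N_anti p (le_max_right _ _)).trans hl')⟩
  isOpen_sUnion := by
    rintro S hS p ⟨s, hs, hp⟩
    obtain ⟨l, hl⟩ := hS s hs p hp
    exact ⟨l, hl.trans (subset_sUnion_of_mem hs)⟩

lemma isOpen_iff' {U : Set (Sp G)} : IsOpen U ↔ ∀ p ∈ U, ∃ l, N p l ⊆ U := Iff.rfl

lemma isOpen_N (p : Sp G) (l : ℕ) : IsOpen (N p l) := by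
  intro q hq
  obtain ⟨l', hl'⟩ := V_open G p.pt l q.pt hq
  exact ⟨l', fun x hx => hl' hx⟩

lemma isClosed_N (p : Sp G) (l : ℕ) : IsClosed (N p l) := by
  rw [← isOpen_compl_iff]
  intro q hq
  obtain ⟨l', hl'⟩ := V_closed G p.pt q.pt l hq
  exact ⟨l', fun x hx hx' => Set.disjoint_left.1 hl' hx hx'⟩

lemma nhds_hasBasis (p : Sp G) : (𝓝 p).HasBasis (fun _ : ℕ => True) (N p) := by
  rw [hasBasis_iff]
  intro t
  constructor
  · intro h
    obtain ⟨U, hU, hUo, hpU⟩ := mem_nhds_iff.1 h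
    obtain ⟨l, hl⟩ := hUo p hpU
    exact ⟨l, trivial, hl.trans hU⟩
  · rintro ⟨l, _, hl⟩
    exact mem_of_superset ((isOpen_N p l).mem_nhds (mem_N p l)) hl

instance : T2Space (Sp G) := by
  refine ⟨fun p q hpq => ?_⟩
  obtain ⟨l, hl⟩ := V_sep G q.pt p.pt (fun h => hpq (by cases p; cases q; simp_all))
  exact ⟨(N q l)ᶜ, N q l, (isClosed_N q l).isOpen_compl, isOpen_N q l, hl, mem_N q l,
    disjoint_compl_left⟩

lemma isCompact_N_aux (p : Pt) : ∀ l, IsCompact (N (⟨p⟩ : Sp G) l) := by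
  refine pt_induction (Q := fun p : Pt => ∀ l, IsCompact (N (⟨p⟩ : Sp G) l)) ?_ p
  intro p ih l
  rw [isCompact_iff_ultrafilter_le_nhds]
  intro f hf
  rw [le_principal_iff] at hf
  by_cases h : ∀ l', N (⟨p⟩ : Sp G) l' ∈ f
  · refine ⟨⟨p⟩, mem_N _ l, ?_⟩
    intro t ht
    obtain ⟨l', _, hl'⟩ := (nhds_hasBasis (⟨p⟩ : Sp G)).mem_iff.1 ht
    exact mem_of_superset (h l') hl'
  · push Not at h
    obtain ⟨l', hl'⟩ := h
    have h1 : (N (⟨p⟩ : Sp G) l')ᶜ ∈ f := Ultrafilter.compl_mem_iff_notMem.2 hl'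
    have h2 : N (⟨p⟩ : Sp G) l ∩ (N (⟨p⟩ : Sp G) l')ᶜ ∈ f := inter_mem hf h1
    obtain ⟨δ, r⟩ := p
    have hbad : N (⟨(δ, r)⟩ : Sp G) l ∩ (N (⟨(δ, r)⟩ : Sp G) l')ᶜ = ∅ → False := by
      intro h3
      rw [h3] at h2
      exact Filter.NeBot.ne (f := (f : Filter (Sp G))) inferInstance (empty_mem_iff_bot.1 h2)
    rcases V_cases G δ with ⟨n, a, k, hL, h3, h4, h5⟩ | ⟨h3, h4⟩
    · rcases le_or_gt n r with hr | hr
      · have h6 : N (⟨(δ, r)⟩ : Sp G) l ∩ (N (⟨(δ, r)⟩ : Sp G) l')ᶜ ⊆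
            ⋃ m ∈ {m | m < l' ∧ l ≤ m ∧ col m = r}, N (⟨a m⟩ : Sp G) (k m) := by
          rintro x ⟨hx, hx'⟩
          change x.pt ∈ V G (δ, r) l at hx
          have hx'' : x.pt ∉ V G (δ, r) l' := hx'
          rw [h3 r hr] at hx hx''
          rcases hx with hx | hx
          · exact absurd (Or.inl hx) hx''
          · simp only [mem_iUnion] at hx
            obtain ⟨m, hm, hx⟩ := hx
            simp only [mem_iUnion]
            refine ⟨m, ⟨?_, hm.1, hm.2⟩, hx⟩
            by_contra hml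
            apply hx''
            refine mem_insert_of_mem _ ?_
            simp only [mem_iUnion]
            exact ⟨m, ⟨not_lt.1 hml, hm.2⟩, hx⟩
        have h7 : (⋃ m ∈ {m | m < l' ∧ l ≤ m ∧ col m = r}, N (⟨a m⟩ : Sp G) (k m)) ∈ f :=
          mem_of_superset h2 h6
        have hfin : ({m | m < l' ∧ l ≤ m ∧ col m = r}).Finite :=
          (Set.finite_lt_nat l').subset fun m hm => hm.1
        rw [Ultrafilter.finite_biUnion_mem_iff hfin] at h7
        obtain ⟨m, hm, h8⟩ := h7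
        have h9 := ih (a m) (hL.lt m) (k m)
        rw [isCompact_iff_ultrafilter_le_nhds] at h9
        obtain ⟨x, hx, hx'⟩ := h9 f (le_principal_iff.2 h8)
        refine ⟨x, ?_, hx'⟩
        change x.pt ∈ V G (δ, r) l
        rw [h3 r hr]
        refine mem_insert_of_mem _ ?_
        simp only [mem_iUnion]
        exact ⟨m, ⟨hm.2.1, hm.2.2⟩, hx⟩
      · refine (hbad ?_).elim
        rw [← Set.subset_empty_iff]
        rintro x ⟨hx, hx'⟩
        change x.pt ∈ V G (δ, r) l at hx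
        have hx'' : x.pt ∉ V G (δ, r) l' := hx'
        rw [h4 r hr] at hx hx''
        exact hx'' hx
    · refine (hbad ?_).elim
      rw [← Set.subset_empty_iff]
      rintro x ⟨hx, hx'⟩
      change x.pt ∈ V G (δ, r) l at hx
      have hx'' : x.pt ∉ V G (δ, r) l' := hx'
      rw [h3] at hx hx''
      exact hx'' hx

lemma isCompact_N (p : Sp G) (l : ℕ) : IsCompact (N p l) := isCompact_N_aux p.pt l

instance : WeaklyLocallyCompactSpace (Sp G) :=
  ⟨fun p => ⟨N p 0, isCompact_N p 0, (isOpen_N p 0).mem_nhds (mem_N p 0)⟩⟩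

lemma isOpen_level (β : Om) : IsOpen {p : Sp G | p.pt.1 ≤ β} := by
  intro p hp
  refine ⟨0, fun q hq => ?_⟩
  exact (V_le G hq).trans hp

lemma isOpen_rank (n : ℕ) : IsOpen {p : Sp G | p.pt.2 ≤ n} := by
  intro p hp
  exact ⟨0, fun q hq => (V_rank G p.pt 0 q.pt hq).trans hp⟩

/-- new points are in the closure of the sets guessed -/
lemma new_mem_closure (δ : Om) (n r : ℕ) (hr : n ≤ r)
    (h : ∃ a k, Lad (V G) (G δ) δ n a k) (j : ℕ) :
    (⟨(δ, r)⟩ : Sp G) ∈ closure {q : Sp G | q.pt ∈ G δ j ∧ q.pt.1 < δ} := by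
  obtain ⟨a0, k0, h0⟩ := h
  rcases V_cases G δ with ⟨n', a, k, hL, h1, h2, h3⟩ | ⟨h1, h2⟩
  · have hn : n' ≤ n := h3 _ _ _ h0
    rw [mem_closure_iff_nhds_basis (nhds_hasBasis (⟨(δ, r)⟩ : Sp G))]
    intro l _
    obtain ⟨m, hm, hc, ht⟩ := exists_col_tgt r j l
    refine ⟨⟨a m⟩, ⟨?_, hL.lt m⟩, ?_⟩
    · change a m ∈ _
      rw [← ht]; exact hL.mem m
    · change a m ∈ V G (δ, r) l
      rw [h1 r (hn.trans hr)]
      refine mem_insert_of_mem _ ?_
      simp only [mem_iUnion]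
      exact ⟨m, ⟨hm, hc⟩, mem_V G _ _⟩
  · exact absurd h0 (h2 _ _ _)

/-! ### Clubs and guessing -/

/-- closed unbounded sets -/
def IsClub' (E : Om → Prop) : Prop :=
  (∀ a : Om, ∃ b : Om, a < b ∧ E b) ∧
    ∀ a : Om, (∃ b, b < a) → (∀ b : Om, b < a → ∃ c : Om, (b < c ∧ c < a) ∧ E c) → E a

/-- the ordinals closed under a function -/
def Cl (f : Om → Om) (δ : Om) : Prop := (∃ b, b < δ) ∧ ∀ β < δ, f β < δ

lemma club_closure (f : Om → Om) : IsClub' (Cl f) := by
  constructor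
  · intro a
    have h1 : ∀ x : Om, ∃ y : Om, x < y ∧ ∀ β ≤ x, f β < y := by
      intro x
      have hc : ({b : Om | b ≤ x}).Countable := by
        have : {b : Om | b ≤ x} = insert x {b : Om | b < x} := by
          ext b; simp [le_iff_eq_or_lt]
        rw [this]
        exact (Set.countable_coe_iff.1 (countable_Iio x)).insert _
      obtain ⟨g, hg⟩ := hc.exists_eq_range ⟨x, le_refl x⟩
      obtain ⟨y, hy⟩ := exists_bound fun n => max (f (g n)) (g n)
      have hgx : ∀ β ≤ x, ∃ n, g n = β := by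
        intro β hβ
        have : β ∈ range g := by rw [← hg]; exact hβ
        exact this
      refine ⟨y, ?_, ?_⟩
      · obtain ⟨n, hn⟩ := hgx x le_rfl
        have := (le_max_right _ _).trans_lt (hy n)
        rwa [hn] at this
      · intro β hβ
        obtain ⟨n, hn⟩ := hgx β hβ
        have := (le_max_left _ _).trans_lt (hy n)
        rwa [hn] at this
    choose g hg1 hg2 using h1
    let x : ℕ → Om := fun n => Nat.rec a (fun _ y => g y) n
    have hx : ∀ n, x (n + 1) = g (x n) := fun n => rfl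
    refine ⟨ub x, lt_ub x 0, ⟨a, lt_ub x 0⟩, ?_⟩
    intro β hβ
    obtain ⟨n, hn⟩ := ub_le x hβ
    refine (hg2 (x n) β hn).trans ?_
    rw [← hx]
    exact lt_ub x (n + 1)
  · rintro a ⟨b, hb⟩ h
    refine ⟨⟨b, hb⟩, fun β hβ => ?_⟩
    obtain ⟨c, ⟨h1, h2⟩, _, h3⟩ := h β hβ
    exact (h3 β h1).trans h2

/-- `G` guesses sequences of sets of points -/
def Guess (G : Om → ℕ → Set Pt) : Prop :=
  ∀ (C : ℕ → Set Pt) (f : Om → Om), ∃ δ, Cl f δ ∧
    ∀ j (p : Pt), p.1 < δ → (p ∈ G δ j ↔ p ∈ C j)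

lemma exists_guess (A : Om → Om → Prop)
    (hA : ∀ S : Om → Prop, ∀ C : Om → Prop, IsClub' C → ∃ a, C a ∧ ∀ b, b < a → (S b ↔ A a b)) :
    ∃ G, Guess G := by
  obtain ⟨e, he⟩ : ∃ e : ℕ × Pt → Om, Function.Injective e := by
    have h1 : Cardinal.mk (ℕ × Pt) ≤ Cardinal.mk Om := by
      have h2 : Cardinal.mk Om = Cardinal.aleph 1 := by simp
      rw [Cardinal.mk_prod, Cardinal.mk_prod, Cardinal.mk_nat, h2]
      simp
    obtain ⟨e⟩ := (Cardinal.le_def _ _).1 h1
    exact ⟨e, e.injective⟩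
  refine ⟨fun δ j => {p | A δ (e (j, p))}, ?_⟩
  intro C f
  have h1 : ∀ β : Om, ∃ γ : Om, f β < γ ∧ ∀ (j : ℕ) (i : ℕ), e (j, (β, i)) < γ := by
    intro β
    obtain ⟨γ, hγ⟩ := exists_bound fun n => max (f β) (e ((Nat.unpair n).1, (β, (Nat.unpair n).2)))
    refine ⟨γ, (le_max_left _ _).trans_lt (hγ 0), fun j i => ?_⟩
    have := (le_max_right _ _).trans_lt (hγ (Nat.pair j i))
    simpa using this
  choose g hg1 hg2 using h1
  obtain ⟨δ, ⟨h2, h3⟩, h4⟩ := hA (fun b => ∃ j p, e (j, p) = b ∧ p ∈ C j) (Cl g) (club_closure g)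
  refine ⟨δ, ⟨h2, fun β hβ => (hg1 β).trans (h3 β hβ)⟩, fun j p hp => ?_⟩
  obtain ⟨β, i⟩ := p
  have h5 := h4 (e (j, (β, i))) ((hg2 β j i).trans (h3 β hp))
  change A δ (e (j, (β, i))) ↔ _
  rw [← h5]
  constructor
  · rintro ⟨j', p', h6, h7⟩
    have h8 := he h6
    rw [Prod.mk.injEq] at h8
    rw [h8.1, h8.2] at h7
    exact h7
  · intro h6
    exact ⟨j, _, rfl, h6⟩

/-! ### The two consequences of guessing -/

lemma exists_level_bound {δ : Om} (h : ∃ b, b < δ) (F : Finset Pt) (hF : ∀ x ∈ F, x.1 < δ) :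
    ∃ β < δ, ∀ x ∈ F, x.1 ≤ β := by
  classical
  induction F using Finset.induction_on with
  | empty =>
    obtain ⟨b, hb⟩ := h
    exact ⟨b, hb, by simp⟩
  | insert a F ha ih =>
    obtain ⟨β, h1, h2⟩ := ih fun x hx => hF x (Finset.mem_insert_of_mem hx)
    refine ⟨max a.1 β, max_lt (hF a (Finset.mem_insert_self _ _)) h1, ?_⟩
    intro x hx
    rcases Finset.mem_insert.1 hx with rfl | hx
    · exact le_max_left _ _
    · exact (h2 x hx).trans (le_max_right _ _)

/-- closed sets of bounded rank are compact -/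
lemma isCompact_of_rank (hG : Guess G) (C : Set (Sp G)) (hC : IsClosed C) (n : ℕ)
    (hn : ∀ q ∈ C, q.pt.2 ≤ n) : IsCompact C := by
  classical
  by_contra hnc
  have hN : ∀ F : Finset Pt, ∃ a : Pt, (⟨a⟩ : Sp G) ∈ C ∧ ∀ x ∈ F, a ∉ V G x 0 := by
    intro F
    by_contra hF
    push Not at hF
    apply hnc
    have h1 : IsCompact (⋃ x ∈ F, N (⟨x⟩ : Sp G) 0) :=
      F.isCompact_biUnion fun x _ => isCompact_N _ _
    refine h1.of_isClosed_subset hC ?_
    intro q hq
    obtain ⟨x, hx, hqx⟩ := hF q.pt hq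
    simp only [mem_iUnion]
    exact ⟨x, hx, hqx⟩
  choose w hw1 hw2 using hN
  have hbd : ∀ β : Om, ∃ γ : Om, ∀ F : Finset Pt, (∀ x ∈ F, x.1 ≤ β) → (w F).1 < γ := by
    intro β
    have hc : Countable {x : Pt // x.1 ≤ β} := by
      have h1 : {x : Pt | x.1 ≤ β} = (insert β {b : Om | b < β}) ×ˢ (univ : Set ℕ) := by
        ext x; simp [le_iff_eq_or_lt]
      have h2 : ({x : Pt | x.1 ≤ β}).Countable := by
        rw [h1]
        exact ((Set.countable_coe_iff.1 (countable_Iio β)).insert _).prod countable_univ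
      exact h2.to_subtype
    obtain ⟨g, hg⟩ := exists_surjective_nat (Finset {x : Pt // x.1 ≤ β})
    obtain ⟨γ, hγ⟩ := exists_bound fun m =>
      (w ((g m).map (Function.Embedding.subtype _))).1
    refine ⟨γ, fun F hF => ?_⟩
    obtain ⟨m, hm⟩ := hg (F.subtype fun x => x.1 ≤ β)
    have h1 := hγ m
    rw [hm, Finset.subtype_map_of_mem hF] at h1
    exact h1
  choose f hf using hbd
  obtain ⟨δ, hδ, hg⟩ := hG (fun _ => {p | (⟨p⟩ : Sp G) ∈ C}) f
  have hlad : ∃ a k, Lad (V G) (G δ) δ n a k := by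
    refine exists_lad G δ n fun j F hF => ?_
    obtain ⟨β, hβ, hFβ⟩ := exists_level_bound hδ.1 F hF
    have h1 : (w F).1 < δ := (hf β F hFβ).trans (hδ.2 β hβ)
    exact ⟨w F, (hg j _ h1).2 (hw1 F), h1, hn _ (hw1 F), hw2 F⟩
  have h2 := new_mem_closure δ n (n + 1) (Nat.le_succ n) hlad 0
  have h3 : closure {q : Sp G | q.pt ∈ G δ 0 ∧ q.pt.1 < δ} ⊆ C := by
    rw [hC.closure_subset_iff]
    rintro q ⟨hq1, hq2⟩
    exact (hg 0 q.pt hq2).1 hq1
  exact absurd (hn _ (h3 h2)) (by simp)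

/-- countably many unbounded sets of points of rank zero have common accumulation points -/
lemma common_acc (hG : Guess G) (C : ℕ → Set Om) (hu : ∀ j β, ∃ δ ∈ C j, β < δ) (β₀ : Om) :
    ∃ δ, β₀ < δ ∧ ∀ j, (⟨(δ, 0)⟩ : Sp G) ∈
      closure ((fun δ => (⟨(δ, 0)⟩ : Sp G)) '' (C j ∩ Iio δ)) := by
  choose w hw1 hw2 using hu
  have hbd : ∀ β : Om, ∃ γ : Om, β₀ < γ ∧ ∀ j, w j β < γ := by
    intro β
    obtain ⟨γ, hγ⟩ := exists_bound fun j => max β₀ (w j β)
    exact ⟨γ, (le_max_left _ _).trans_lt (hγ 0), fun j => (le_max_right _ _).trans_lt (hγ j)⟩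
  choose f hf1 hf2 using hbd
  obtain ⟨δ, hδ, hg⟩ := hG (fun j => (fun δ : Om => ((δ, 0) : Pt)) '' (C j)) f
  have hlad : ∃ a k, Lad (V G) (G δ) δ 0 a k := by
    refine exists_lad G δ 0 fun j F hF => ?_
    obtain ⟨β, hβ, hFβ⟩ := exists_level_bound hδ.1 F hF
    have h1 : w j β < δ := (hf2 β j).trans (hδ.2 β hβ)
    refine ⟨(w j β, 0), (hg j _ h1).2 ⟨_, hw1 j β, rfl⟩, h1, le_rfl, fun x hx hm => ?_⟩
    exact absurd ((V_le G hm).trans (hFβ x hx)) (not_le.2 (hw2 j β))
  obtain ⟨b, hb⟩ := hδ.1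
  refine ⟨δ, (hf1 b).trans (hδ.2 b hb), fun j => ?_⟩
  refine closure_mono ?_ (new_mem_closure δ 0 0 le_rfl hlad j)
  rintro q ⟨hq1, hq2⟩
  obtain ⟨ξ, hξ, hq⟩ := (hg j q.pt hq2).1 hq1
  refine ⟨ξ, ⟨hξ, ?_⟩, by cases q; simp_all⟩
  rw [← hq] at hq2
  exact hq2

/-! ### The compact space -/

/-- the weak base -/
noncomputable def WB (x : OnePoint (Sp G)) : ℕ → Set (OnePoint (Sp G)) :=
  OnePoint.elim x
    (fun n => insert OnePoint.infty ((fun q : Sp G => (q : OnePoint (Sp G))) '' {q | n ≤ q.pt.2}))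
    (fun p n => (fun q : Sp G => (q : OnePoint (Sp G))) '' N p n)

lemma WB_infty (n : ℕ) : WB (OnePoint.infty : OnePoint (Sp G)) n =
    insert OnePoint.infty ((fun q : Sp G => (q : OnePoint (Sp G))) '' {q | n ≤ q.pt.2}) := rfl

lemma WB_coe (p : Sp G) (n : ℕ) : WB (p : OnePoint (Sp G)) n =
    (fun q : Sp G => (q : OnePoint (Sp G))) '' N p n := rfl

lemma wfc (hG : Guess G) : ∃ B : OnePoint (Sp G) → ℕ → Set (OnePoint (Sp G)),
    (∀ x n, B x (n + 1) ⊆ B x n) ∧ (∀ x n, x ∈ B x n) ∧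
    ∀ U : Set (OnePoint (Sp G)), IsOpen U ↔ ∀ x ∈ U, ∃ n, B x n ⊆ U := by
  refine ⟨WB, ?_, ?_, ?_⟩
  · intro x n
    induction x using OnePoint.rec with
    | infty =>
      rw [WB_infty, WB_infty]
      exact insert_subset_insert (image_mono fun q (hq : n + 1 ≤ q.pt.2) => by
        change n ≤ q.pt.2; omega)
    | coe p =>
      rw [WB_coe, WB_coe]
      exact image_mono (N_anti p (Nat.le_succ n))
  · intro x n
    induction x using OnePoint.rec with
    | infty => rw [WB_infty]; exact mem_insert _ _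
    | coe p => rw [WB_coe]; exact mem_image_of_mem _ (mem_N p n)
  · intro U
    rw [OnePoint.isOpen_def]
    constructor
    · rintro ⟨h1, h2⟩ x hx
      induction x using OnePoint.rec with
      | infty =>
        have h3 := h1 hx
        obtain ⟨n, hn⟩ := h3.elim_directed_cover (fun n : ℕ => {p : Sp G | p.pt.2 ≤ n})
          (fun n => isOpen_rank n) (fun q _ => mem_iUnion.2 ⟨q.pt.2, le_refl q.pt.2⟩) (by
            intro a b
            refine ⟨max a b, ?_, ?_⟩
            · intro q hq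
              have h4 : q.pt.2 ≤ a := hq
              exact h4.trans (le_max_left _ _)
            · intro q hq
              have h4 : q.pt.2 ≤ b := hq
              exact h4.trans (le_max_right _ _))
        refine ⟨n + 1, ?_⟩
        rw [WB_infty]
        rintro y (rfl | ⟨q, hq, rfl⟩)
        · exact hx
        · by_contra hy
          have h4 : q.pt.2 ≤ n := hn hy
          have h5 : n + 1 ≤ q.pt.2 := hq
          omega
      | coe p =>
        obtain ⟨l, hl⟩ := h2 p hx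
        refine ⟨l, ?_⟩
        rw [WB_coe]
        rintro y ⟨q, hq, rfl⟩
        exact hl hq
    · intro h
      have h2 : IsOpen ((fun q : Sp G => (q : OnePoint (Sp G))) ⁻¹' U) := by
        intro p hp
        obtain ⟨l, hl⟩ := h p hp
        rw [WB_coe] at hl
        exact ⟨l, fun q hq => hl (mem_image_of_mem _ hq)⟩
      refine ⟨fun h3 => ?_, h2⟩
      obtain ⟨n, hn⟩ := h _ h3
      rw [WB_infty] at hn
      refine isCompact_of_rank hG _ h2.isClosed_compl n ?_
      intro q hq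
      by_contra h4
      apply hq
      exact hn (mem_insert_of_mem _ (mem_image_of_mem _ (not_le.1 h4).le))

/-! ### The points of rank zero -/

/-- the points of rank zero -/
def pz (G : Om → ℕ → Set Pt) (δ : Om) : OnePoint (Sp G) := ((⟨(δ, 0)⟩ : Sp G) : OnePoint (Sp G))

lemma pz_inj : Function.Injective (pz G) := by
  intro a b h
  have h1 := OnePoint.coe_injective h
  have h2 : ((a, 0) : Pt) = (b, 0) := congrArg Sp.pt h1
  exact congrArg Prod.fst h2

/-- relatively closed sets of points of rank zero -/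
def RC (G : Om → ℕ → Set Pt) (C : Set Om) : Prop := ∀ δ, pz G δ ∈ closure (pz G '' C) → δ ∈ C

/-- unbounded sets -/
def Unb (C : Set Om) : Prop := ∀ β, ∃ δ ∈ C, β < δ

lemma rc_iInter (C : ℕ → Set Om) (h : ∀ j, RC G (C j)) : RC G (⋂ j, C j) := by
  intro δ hδ
  refine mem_iInter.2 fun j => h j δ ?_
  exact closure_mono (image_mono (iInter_subset _ j)) hδ

lemma common_acc' (hG : Guess G) (C : ℕ → Set Om) (hu : ∀ j, Unb (C j)) (β : Om) :
    ∃ δ, β < δ ∧ ∀ j, pz G δ ∈ closure (pz G '' (C j ∩ Iio δ)) := by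
  obtain ⟨δ, h1, h2⟩ := common_acc hG C hu β
  refine ⟨δ, h1, fun j => ?_⟩
  have h3 := image_closure_subset_closure_image (OnePoint.continuous_coe (X := Sp G))
    (mem_image_of_mem _ (h2 j))
  rw [image_image] at h3
  exact h3

lemma unb_iInter (hG : Guess G) (C : ℕ → Set Om) (h : ∀ j, RC G (C j)) (hu : ∀ j, Unb (C j)) :
    Unb (⋂ j, C j) := by
  intro β
  obtain ⟨δ, h1, h2⟩ := common_acc' hG C hu β
  exact ⟨δ, mem_iInter.2 fun j => h j δ
    (closure_mono (image_mono inter_subset_left) (h2 j)), h1⟩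

lemma rc_tail (β : Om) : RC G {δ | β < δ} := by
  intro δ hδ
  by_contra hc
  have hc' : δ ≤ β := not_lt.1 hc
  have h1 : IsOpen ((fun q : Sp G => (q : OnePoint (Sp G))) '' {p : Sp G | p.pt.1 ≤ β}) :=
    OnePoint.isOpenEmbedding_coe.isOpenMap _ (isOpen_level β)
  obtain ⟨y, hy1, ξ, hξ, rfl⟩ := mem_closure_iff.1 hδ _ h1 ⟨⟨(δ, 0)⟩, hc', rfl⟩
  obtain ⟨q, hq, hq'⟩ := hy1
  have h2 := OnePoint.coe_injective hq'
  rw [h2] at hq
  have h3 : ξ ≤ β := hq
  have h4 : β < ξ := hξ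
  exact absurd h4 (not_lt.2 h3)

lemma unb_tail (β : Om) : Unb {δ : Om | β < δ} := by
  intro γ
  obtain ⟨δ, hδ⟩ := exists_gt (max β γ)
  exact ⟨δ, (le_max_left _ _).trans_lt hδ, (le_max_right _ _).trans_lt hδ⟩

lemma rc_of_closed {C : Set (OnePoint (Sp G))} (hC : IsClosed C) : RC G (pz G ⁻¹' C) := by
  intro δ hδ
  have h1 : closure (pz G '' (pz G ⁻¹' C)) ⊆ C := by
    rw [hC.closure_subset_iff]
    exact image_preimage_subset _ _
  exact h1 hδ

/-- large sets -/
def Big (G : Om → ℕ → Set Pt) (A : Set Om) : Prop := ∃ C ⊆ A, RC G C ∧ Unb C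

lemma Big.mono {A B : Set Om} (h : Big G A) (hAB : A ⊆ B) : Big G B := by
  obtain ⟨C, h1, h2⟩ := h
  exact ⟨C, h1.trans hAB, h2⟩

lemma big_iInter (hG : Guess G) (A : ℕ → Set Om) (h : ∀ j, Big G (A j)) : Big G (⋂ j, A j) := by
  choose C h1 h2 h3 using h
  exact ⟨⋂ j, C j, iInter_mono h1, rc_iInter C h2, unb_iInter hG C h2 h3⟩

lemma big_inter (hG : Guess G) {A B : Set Om} (hA : Big G A) (hB : Big G B) : Big G (A ∩ B) := by
  have h1 := big_iInter hG (fun j => if j = 0 then A else B) (by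
    intro j
    by_cases hj : j = 0
    · simpa [hj] using hA
    · simpa [hj] using hB)
  refine h1.mono ?_
  intro x hx
  rw [mem_iInter] at hx
  exact ⟨by simpa using hx 0, by simpa using hx 1⟩

lemma big_nonempty {A : Set Om} (h : Big G A) : A.Nonempty := by
  obtain ⟨C, h1, h2, h3⟩ := h
  obtain ⟨δ, hδ, _⟩ := h3 (Classical.arbitrary Om)
  exact ⟨δ, h1 hδ⟩

lemma big_tail (β : Om) : Big G {δ | β < δ} := ⟨_, Subset.rfl, rc_tail β, unb_tail β⟩

lemma big_or {C : Set Om} (hC : RC G C) : Big G C ∨ Big G Cᶜ := by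
  by_cases h : Unb C
  · exact Or.inl ⟨C, Subset.rfl, hC, h⟩
  · right
    unfold Unb at h
    push Not at h
    obtain ⟨β, hβ⟩ := h
    refine (big_tail β).mono ?_
    intro δ hδ hδC
    exact absurd hδ (not_lt.2 (hβ δ hδC))

/-- the subspace of the points of rank zero -/
def YY (G : Om → ℕ → Set Pt) : Set (OnePoint (Sp G)) := range (pz G)

/-- its points -/
def iy (G : Om → ℕ → Set Pt) (δ : Om) : YY G := ⟨pz G δ, mem_range_self δ⟩

lemma iy_surj (y : YY G) : ∃ δ, iy G δ = y := by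
  obtain ⟨y, δ, rfl⟩ := y
  exact ⟨δ, rfl⟩

lemma rc_of_closed' {C : Set (YY G)} (hC : IsClosed C) : RC G (iy G ⁻¹' C) := by
  obtain ⟨t, ht, rfl⟩ := isClosed_induced_iff.1 hC
  exact rc_of_closed ht

lemma exists_near {C : Set Om} {δ : Om} (h : pz G δ ∈ closure (pz G '' C)) {W : Set (YY G)}
    (hW : IsOpen W) (hδ : iy G δ ∈ W) : ∃ ξ ∈ C, iy G ξ ∈ W := by
  obtain ⟨t, ht, rfl⟩ := isOpen_induced_iff.1 hW
  obtain ⟨y, hy, ξ, hξ, rfl⟩ := mem_closure_iff.1 h t ht hδ
  exact ⟨ξ, hξ, hy⟩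

lemma isOpen_le (β : Om) : IsOpen {y : YY G | ∀ δ, iy G δ = y → δ ≤ β} := by
  rw [isOpen_induced_iff]
  refine ⟨(fun q : Sp G => (q : OnePoint (Sp G))) '' {p : Sp G | p.pt.1 ≤ β},
    OnePoint.isOpenEmbedding_coe.isOpenMap _ (isOpen_level β), ?_⟩
  ext y
  obtain ⟨δ, rfl⟩ := iy_surj y
  constructor
  · rintro ⟨q, hq, hq'⟩ δ' hδ'
    have h2 := OnePoint.coe_injective hq'
    rw [h2] at hq
    have h3 : δ' = δ := pz_inj (congrArg Subtype.val hδ')
    rw [h3]
    exact hq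
  · intro h
    exact ⟨⟨(δ, 0)⟩, h δ rfl, rfl⟩

/-- the subspace is not weakly theta-refinable -/
lemma not_theta (hG : Guess G) (𝒱 : ℕ → Set (Set (YY G)))
    (h𝒱 : ∀ n, ∀ V ∈ 𝒱 n, IsOpen V ∧ ∃ β, V ⊆ {y : YY G | ∀ δ, iy G δ = y → δ ≤ β})
    (hcov : ∀ x : YY G, ∃ n, {V | V ∈ 𝒱 n ∧ x ∈ V}.Nonempty ∧ {V | V ∈ 𝒱 n ∧ x ∈ V}.Finite) :
    False := by
  classical
  let VV : ℕ → Om → Set (Set (YY G)) := fun n δ => {V | V ∈ 𝒱 n ∧ iy G δ ∈ V}
  let O : ℕ → ℕ → Set Om := fun n k => {δ | ∃ T : Finset (Set (YY G)), (∀ V ∈ T, V ∈ VV n δ) ∧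
    T.card = k}
  have hO : ∀ n k, RC G (O n k)ᶜ := by
    intro n k δ hδ hδO
    obtain ⟨T, hT, hk⟩ := hδO
    have h1 : IsOpen (⋂ V ∈ T, V) := isOpen_biInter_finset fun V hV => (h𝒱 n V (hT V hV).1).1
    obtain ⟨ξ, hξ, hξ'⟩ := exists_near hδ h1 (mem_iInter₂.2 fun V hV => (hT V hV).2)
    apply hξ
    rw [mem_iInter₂] at hξ'
    exact ⟨T, fun V hV => ⟨(hT V hV).1, hξ' V hV⟩, hk⟩
  have hbig : ∃ n k, Big G (O n (k + 1) ∩ (O n (k + 2))ᶜ) := by
    by_contra hno
    push Not at hno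
    have h1 : ∀ n k, Big G (O n (k + 1) ∩ (O n (k + 2))ᶜ)ᶜ := by
      intro n k
      rcases big_or (hO n (k + 1)) with h2 | h2
      · exact h2.mono (compl_subset_compl.2 inter_subset_left)
      · rw [compl_compl] at h2
        rcases big_or (hO n (k + 2)) with h3 | h3
        · exact absurd (big_inter hG h2 h3) (hno n k)
        · exact h3.mono (compl_subset_compl.2 inter_subset_right)
    have h2 := big_iInter hG (fun m => (O (Nat.unpair m).1 ((Nat.unpair m).2 + 1) ∩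
      (O (Nat.unpair m).1 ((Nat.unpair m).2 + 2))ᶜ)ᶜ) (fun m => h1 _ _)
    obtain ⟨δ, hδ⟩ := big_nonempty h2
    rw [mem_iInter] at hδ
    obtain ⟨n, hn1, hn2⟩ := hcov (iy G δ)
    obtain ⟨k, hk⟩ : ∃ k, hn2.toFinset.card = k + 1 := by
      have : 0 < hn2.toFinset.card := by
        rw [Finset.card_pos]
        obtain ⟨V, hV⟩ := hn1
        exact ⟨V, by simpa using hV⟩
      exact ⟨_, (Nat.succ_pred_eq_of_pos this).symm⟩
    have h3 := hδ (Nat.pair n k)
    apply h3
    simp only [Nat.unpair_pair]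
    refine ⟨⟨hn2.toFinset, fun V hV => (Set.Finite.mem_toFinset _).1 hV, hk⟩, ?_⟩
    rintro ⟨T, hT, hTk⟩
    have h4 : T ⊆ hn2.toFinset := fun V hV => by
      rw [Set.Finite.mem_toFinset]
      exact hT V hV
    have h5 := Finset.card_le_card h4
    omega
  obtain ⟨n, k, C, hCA, hC, hCu⟩ := hbig
  have hVfin : ∀ y ∈ C, (VV n y).Finite ∧ (VV n y).ncard = k + 1 := by
    intro y hy
    obtain ⟨⟨T, hT, hTk⟩, h2⟩ := hCA hy
    have hfin : (VV n y).Finite := by
      by_contra hinf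
      obtain ⟨T', h3, h4⟩ := (show (VV n y).Infinite from hinf).exists_subset_card_eq (k + 2)
      exact h2 ⟨T', fun V hV => h3 hV, h4⟩
    refine ⟨hfin, le_antisymm ?_ ?_⟩
    · by_contra h3
      push Not at h3
      obtain ⟨T', h4, h5⟩ := Finset.exists_subset_card_eq (s := hfin.toFinset) (n := k + 2) (by
        rw [← Set.ncard_eq_toFinset_card _ hfin]; omega)
      exact h2 ⟨T', fun V hV => by simpa using h4 hV, h5⟩
    · rw [Set.ncard_eq_toFinset_card _ hfin, ← hTk]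
      refine Finset.card_le_card fun V hV => ?_
      rw [Set.Finite.mem_toFinset]
      exact hT V hV
  let D : Set Om := {y | y ∈ C ∧ ∀ y' ∈ C, VV n y' = VV n y → y ≤ y'}
  have hD : Unb D := by
    by_contra hnD
    unfold Unb at hnD
    push Not at hnD
    obtain ⟨β, hβ⟩ := hnD
    have h1 : ∀ d : Om, ∃ γ : Om, ∀ y ∈ C, VV n y = VV n d → y ≤ γ := by
      intro d
      by_cases hne : (VV n d).Nonempty
      · obtain ⟨V, hV⟩ := hne
        obtain ⟨γ, hγ⟩ := (h𝒱 n V hV.1).2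
        refine ⟨γ, fun y hy hyd => ?_⟩
        have hV' : V ∈ VV n y := by rw [hyd]; exact hV
        exact hγ hV'.2 y rfl
      · refine ⟨d, fun y hy hyd => ?_⟩
        exfalso
        apply hne
        rw [← hyd]
        have := (hVfin y hy).2
        rw [← Set.ncard_pos (hVfin y hy).1]
        omega
    choose γ hγ using h1
    have hcount : ({b : Om | b ≤ β}).Countable := by
      have : {b : Om | b ≤ β} = insert β {b : Om | b < β} := by
        ext b; simp [le_iff_eq_or_lt]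
      rw [this]
      exact (Set.countable_coe_iff.1 (countable_Iio β)).insert _
    obtain ⟨g, hg⟩ := hcount.exists_eq_range ⟨β, le_refl β⟩
    obtain ⟨ζ, hζ⟩ := exists_bound fun m => γ (g m)
    obtain ⟨y, hy, hyζ⟩ := hCu ζ
    -- the least element of the class of `y`
    obtain ⟨d, hd, hdmin⟩ := WellFounded.has_min (wellFounded_lt (α := Om))
      {d | d ∈ C ∧ VV n d = VV n y} ⟨y, hy, rfl⟩
    have hdD : d ∈ D := ⟨hd.1, fun y' hy' h2 => not_lt.1 (hdmin y' ⟨hy', h2.trans hd.2⟩)⟩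
    have h3 : d ∈ range g := by
      rw [← hg]
      exact hβ d hdD
    obtain ⟨m, rfl⟩ := h3
    exact absurd ((hγ _ y hy hd.2.symm).trans_lt (hζ m)) (not_lt.2 hyζ.le)
  obtain ⟨δ, _, hδ⟩ := common_acc' hG (fun _ => D) (fun _ => hD) (Classical.arbitrary Om)
  replace hδ := hδ 0
  have hδC : δ ∈ C := hC δ (closure_mono (image_mono fun x hx => hx.1.1) hδ)
  have hW : IsOpen (⋂ V ∈ (hVfin δ hδC).1.toFinset, V) :=
    isOpen_biInter_finset fun V hV => (h𝒱 n V ((Set.Finite.mem_toFinset _).1 hV).1).1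
  have hδW : iy G δ ∈ ⋂ V ∈ (hVfin δ hδC).1.toFinset, V :=
    mem_iInter₂.2 fun V hV => ((Set.Finite.mem_toFinset _).1 hV).2
  have key : ∀ ξ ∈ C, iy G ξ ∈ (⋂ V ∈ (hVfin δ hδC).1.toFinset, V) → VV n ξ = VV n δ := by
    intro ξ hξ hξW
    rw [mem_iInter₂] at hξW
    refine (Set.eq_of_subset_of_ncard_le ?_ ?_ (hVfin ξ hξ).1).symm
    · intro V hV
      exact ⟨hV.1, hξW V ((Set.Finite.mem_toFinset _).2 hV)⟩
    · rw [(hVfin ξ hξ).2, (hVfin δ hδC).2]
  obtain ⟨ξ, hξ, hξW⟩ := exists_near hδ hW hδW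
  have hne : iy G δ ≠ iy G ξ := by
    intro h
    have h1 : δ = ξ := pz_inj (congrArg Subtype.val h)
    have h2 : ξ < δ := hξ.2
    exact absurd h1 h2.ne'
  obtain ⟨ξ', hξ', hξW'⟩ := exists_near hδ (hW.inter (isOpen_compl_singleton (x := iy G ξ)))
    ⟨hδW, hne⟩
  have h1 := key ξ hξ.1.1 hξW
  have h2 := key ξ' hξ'.1.1 hξW'.1
  have h3 : ξ ≤ ξ' := hξ.1.2 ξ' hξ'.1.1 (h2.trans h1.symm)
  have h4 : ξ' ≤ ξ := hξ'.1.2 ξ hξ.1.1 (h1.trans h2.symm)
  apply hξW'.2
  rw [le_antisymm h4 h3]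
  exact mem_singleton _

end Pool.Agent.Helper319.Jak
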